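import Pool.Agent.TH954.Closure

/-!
# Adelic points on subvarieties of powers of an elliptic curve of rank at most one

Let `E` be an elliptic curve over a number field `K`, let `Γ` be a group of `K`-points of `E` of
rank at most one, and let `X` be a closed subvariety of `Eⁿ`. A point of `X` over the product of
the completions (all finite places outside a finite set `G`) which lies in the closure of `Γⁿ`
lies in the closure of `X(K) ∩ Γⁿ`.
-/

open IsDedekindDomain NumberField Pool.Agent.TH954

theorem Pool.Agent.Results.MP_308fa9_nt.PowersOfRankOneCurves.result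
    (K : Type) [Field K] [NumberField K] [DecidableEq K]
    (E : WeierstrassCurve K) [E.IsElliptic]
    (h1 : E.a₁ = 0) (h2 : E.a₂ = 0) (h3 : E.a₃ = 0)
    (h4 : IsIntegral ℤ E.a₄) (h6 : IsIntegral ℤ E.a₆)
    (Γ : AddSubgroup E.toAffine.Point) (hΓ : Module.rank ℤ Γ ≤ 1)
    (n : ℕ) (S : Set (MvPolynomial (Fin n × Fin 3) K)) (hS : ∀ f ∈ S, ∃ d, MultiHom d f)
    (G : Set (HeightOneSpectrum (𝓞 K))) (hG : G.Finite) :
    {x ∈ adelicClosure (E := E) G {y | ∀ i, y i ∈ Γ} | ∀ v, OnX S (fun i => crd (x v i))} =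
    adelicClosure (E := E) G {y | (∀ i, y i ∈ Γ) ∧ OnX S (fun i => crd (y i))} :=
  rank_one_main E h1 h2 h3 h4 h6 Γ hΓ n S hS G hG
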