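import Mathlib
import Pool.Agent.TH841.FD.Main3
import Pool.Agent.TH841.FD.BM2
import Pool.Agent.TH841.FD.Covl
import Pool.Agent.TH841.FD.Copr

/-!
# The Brauer-Manin set of the everywhere locally solvable quartics `b₁ M⁴ - (A + B) M² + A B / b₁`

Let `A = D α`, `B = D β`, where `α`, `β` are coprime integers. For a squarefree divisor `b₁` of
`A B` consider the curve of genus one `C : N² = b₁ M⁴ - (A + B) M² e² + (A B / b₁) e⁴`. The function
`g = (b₁ M² - A e²) / e²` has a divisor divisible by `2`, so that the classes `(g, ε)`, `ε ∈ ℚ*`,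
belong to the Brauer group of `C`. We prove that most of the curves `C` with points everywhere
locally have no adelic point orthogonal to these classes, when `(α, β)` ranges over the coprime
pairs in a short square.
-/

set_option autoImplicit false

namespace Pool.Agent.Results.MP_308fa9_nt.QuarticsForPairs

open Finset

open Pool.Agent.W313.BMX (Splits Fam ram IsTest)

/-- A point over `K` of the curve `C : N² = b₁ M⁴ - (A + B) M² e² + (A B / b₁) e⁴` -/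
structure Point (A B b₁ : ℤ) (K : Type) [Field K] where
  /-- the first coordinate -/
  M : K
  /-- the second coordinate -/
  e : K
  /-- the third coordinate -/
  N : K
  ne : M ≠ 0 ∨ e ≠ 0
  eq : N ^ 2 = (b₁ : K) * M ^ 4 + ((-(A + B) : ℤ) : K) * M ^ 2 * e ^ 2 +
    ((A * B / b₁ : ℤ) : K) * e ^ 4

/-- the squarefree `b₁ ∣ A B` for which `C` has points everywhere locally -/
def ELS (A B : ℤ) : Set ℤ := {b₁ | Squarefree b₁ ∧ b₁ ∣ A * B ∧ Nonempty (Point A B b₁ ℝ) ∧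
  ∀ (p : ℕ) [Fact p.Prime], Nonempty (Point A B b₁ ℚ_[p])}

variable {A B b₁ : ℤ}

open Classical in
/-- The value of the function `g` at a point, modulo squares; at a zero of `b₁ M² - A e²` it is
computed from `(b₁ M² - A e²) (b₁ M² - B e²) = b₁ N²`. -/
noncomputable def value {K : Type} [Field K] (P : Point A B b₁ K) : K :=
  if (b₁ : K) * P.M ^ 2 - (A : K) * P.e ^ 2 ≠ 0 then (b₁ : K) * P.M ^ 2 - (A : K) * P.e ^ 2
  else (b₁ : K) * ((b₁ : K) * P.M ^ 2 - (B : K) * P.e ^ 2)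

/-- an adelic point of the curve `C` -/
structure AdelicPoint (A B b₁ : ℤ) where
  /-- the real component -/
  re : Point A B b₁ ℝ
  /-- the `p`-adic components -/
  pa : ∀ p : Nat.Primes, Point A B b₁ ℚ_[(p : ℕ)]

/-- the values of `g` at the components of an adelic point, modulo squares -/
noncomputable def values (P : AdelicPoint A B b₁) : Fam := ⟨value P.re, fun p => value (P.pa p)⟩

/-- The adelic point is orthogonal to the classes `(g, ε)` of the Brauer group of `C`, `ε = -1`,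
`ε = 2` or `ε = ± q = 1` modulo `4`, `q` prime: the number of the places at which the Hilbert symbol
is not trivial is even, so that the sum of the invariants is zero. -/
def Orthogonal (P : AdelicPoint A B b₁) : Prop := ∀ ε : ℤ, IsTest ε → Even (ram (values P) ε).ncard

/-- the `b₁` in `ELS A B` for which `C` has an adelic point orthogonal to these classes -/
def Unobstructed (A B : ℤ) : Set ℤ := {b₁ | b₁ ∈ ELS A B ∧ ∃ P : AdelicPoint A B b₁, Orthogonal P}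

/-- `P` is a rational point, and the components of the adelic point `P'` are equal to it -/
def IsDiagonal (P : Point A B b₁ ℚ) (P' : AdelicPoint A B b₁) : Prop :=
  (P'.re.M = P.M ∧ P'.re.e = P.e ∧ P'.re.N = P.N) ∧
    ∀ p : Nat.Primes, (P'.pa p).M = P.M ∧ (P'.pa p).e = P.e ∧ (P'.pa p).N = P.N

/-! ### Comparison with the library -/

def cv {K : Type} [Field K] (P : Point A B b₁ K) : Pool.Agent.TH841.FD.Pnt A B b₁ K :=
  ⟨P.M, P.e, P.N, P.ne, P.eq⟩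

def vc {K : Type} [Field K] (P : Pool.Agent.TH841.FD.Pnt A B b₁ K) : Point A B b₁ K :=
  ⟨P.M, P.e, P.N, P.ne, P.eq⟩

noncomputable def ca (P : AdelicPoint A B b₁) : Pool.Agent.TH841.FD.Adel A B b₁ :=
  ⟨cv P.re, fun p => cv (P.pa p)⟩

lemma els_eq (A B : ℤ) : ELS A B = Pool.Agent.TH841.NO.SQ (-(A + B)) (A * B) := by
  have h : ∀ (K : Type) [Field K] (b₁ : ℤ), Nonempty (Point A B b₁ K) ↔
      Pool.Agent.TH841.NO.Qu K (-(A + B)) (A * B) b₁ := fun K _ b₁ =>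
    ⟨fun ⟨P⟩ => ⟨P.N, P.M, P.e, P.ne, P.eq⟩, fun ⟨N, M, e, h, h'⟩ => ⟨⟨M, e, N, h, h'⟩⟩⟩
  ext b₁
  constructor
  · rintro ⟨h1, h2, h3, h4⟩
    exact ⟨h1, h2, (h ℝ b₁).1 h3, fun p _ => (h ℚ_[p] b₁).1 (h4 p)⟩
  · rintro ⟨h1, h2, h3, h4⟩
    exact ⟨h1, h2, (h ℝ b₁).2 h3, fun p _ => (h ℚ_[p] b₁).2 (h4 p)⟩

lemma unob_eq {A B : ℤ} (hAB : A ≠ B) : Unobstructed A B = Pool.Agent.TH841.FD.LF A B := by
  ext b₁
  constructor
  · rintro ⟨h1, P, hP⟩
    refine ⟨els_eq A B ▸ h1, ?_⟩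
    exact Pool.Agent.TH841.FD.cov_of_orth h1.1.ne_zero hAB h1.2.1 (ca P) hP
  · rintro ⟨h1, h2⟩
    have h1' : b₁ ∈ ELS A B := by rw [els_eq]; exact h1
    obtain ⟨P, hP⟩ := Pool.Agent.TH841.FD.orth_of_cov h1'.1.ne_zero hAB h1'.2.1 h2
    exact ⟨h1', ⟨vc P.re, fun p => vc (P.pa p)⟩, hP⟩

open Classical in
/-- **Theorem.** (1) Let `A ≠ B`, `b₁ ≠ 0`, `b₁ ∣ A B`. For all the adelic points `P` of `C` and all
`ε ≠ 0` the number of the places at which the symbol `(g(P), ε)` is not trivial is finite; the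
adelic points defined by the rational points are orthogonal.
(2) Let `D ≠ 0` be an integer, `δ, ε > 0` and `L` a natural number. There is `X₀` such that for
`X ≥ X₀` and `|N₁|, |N₂| ≤ X ^ L`: the sum of `#Unobstructed A B`, `A = D α`, `B = D β`, over the
coprime pairs `N₁ < α ≤ N₁ + X`, `N₂ < β ≤ N₂ + X` with `α`, `β`, `α - β` nonzero is at most
`(log X) ^ (δ - (3 / 2) log 2)` times the sum of `#ELS A B` over the same pairs; and for all the
coprime pairs in the square with at most `ε X²` exceptions `A`, `B`, `A - B` are nonzero and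
`#Unobstructed A B ≤ (log X) ^ (δ - (3 / 2) log 2) * #ELS A B`. -/
theorem result :
    (∀ A B b₁ : ℤ, A ≠ B → b₁ ≠ 0 → b₁ ∣ A * B →
      (∀ P : AdelicPoint A B b₁, ∀ ε : ℤ, ε ≠ 0 → (ram (values P) ε).Finite) ∧
      ∀ (P : Point A B b₁ ℚ) (P' : AdelicPoint A B b₁), IsDiagonal P P' → Orthogonal P') ∧
    ∀ (D : ℤ) (_ : D ≠ 0) (δ ε : ℝ) (L : ℕ) (_ : 0 < δ) (_ : 0 < ε),
    ∃ X₀ : ℕ, ∀ (N₁ N₂ : ℤ) (X : ℕ), X₀ ≤ X → N₁.natAbs ≤ X ^ L → N₂.natAbs ≤ X ^ L →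
      ∑ t ∈ (Icc 1 X ×ˢ Icc 1 X).filter (fun t : ℕ × ℕ =>
        IsCoprime (N₁ + (t.1 : ℤ)) (N₂ + (t.2 : ℤ)) ∧ N₁ + (t.1 : ℤ) ≠ 0 ∧ N₂ + (t.2 : ℤ) ≠ 0 ∧
        N₁ + (t.1 : ℤ) ≠ N₂ + (t.2 : ℤ)),
        ((Unobstructed (D * (N₁ + (t.1 : ℤ))) (D * (N₂ + (t.2 : ℤ)))).ncard : ℝ) ≤
      (Real.log X) ^ (δ - 3 / 2 * Real.log 2) *
      ∑ t ∈ (Icc 1 X ×ˢ Icc 1 X).filter (fun t : ℕ × ℕ =>
        IsCoprime (N₁ + (t.1 : ℤ)) (N₂ + (t.2 : ℤ)) ∧ N₁ + (t.1 : ℤ) ≠ 0 ∧ N₂ + (t.2 : ℤ) ≠ 0 ∧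
        N₁ + (t.1 : ℤ) ≠ N₂ + (t.2 : ℤ)),
        ((ELS (D * (N₁ + (t.1 : ℤ))) (D * (N₂ + (t.2 : ℤ)))).ncard : ℝ) ∧
      (((Icc 1 X ×ˢ Icc 1 X).filter (fun t : ℕ × ℕ =>
        IsCoprime (N₁ + (t.1 : ℤ)) (N₂ + (t.2 : ℤ)) ∧
        ¬ ∀ A B : ℤ, A = D * (N₁ + (t.1 : ℤ)) → B = D * (N₂ + (t.2 : ℤ)) →
        A ≠ 0 ∧ B ≠ 0 ∧ A ≠ B ∧ ((Unobstructed A B).ncard : ℝ) ≤
          (Real.log X) ^ (δ - 3 / 2 * Real.log 2) * ((ELS A B).ncard : ℝ))).card : ℝ) ≤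
        ε * X ^ 2 := by
  refine ⟨fun A B b₁ hAB hb hd => ⟨fun P ε hε => ?_, fun P P' hPP' => ?_⟩, ?_⟩
  · exact Pool.Agent.TH841.FD.ram_fin hb hAB hd (ca P) ε hε
  · have h1 : P' = ⟨vc ((cv P).cast ℝ), fun p => vc ((cv P).cast ℚ_[(p : ℕ)])⟩ := by
      obtain ⟨⟨M, e, N, h1, h2⟩, pa⟩ := P'
      obtain ⟨⟨e1, e2, e3⟩, h4⟩ := hPP'
      simp only at e1 e2 e3
      subst e1 e2 e3
      congr 1
      funext p
      obtain ⟨k1, k2, k3⟩ := h4 p
      simp only at k1 k2 k3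
      cases hp : pa p with
      | mk M e N g1 g2 =>
        rw [hp] at k1 k2 k3
        simp only at k1 k2 k3
        subst k1 k2 k3
        rfl
    rw [h1]
    exact Pool.Agent.TH841.FD.orth_rat hb hAB (cv P)
  · intro D hD δ ε L hδ hε
    obtain ⟨X1, h1⟩ := Pool.Agent.TH841.FD.pairs Pool.Agent.TH841.FD.COVLf.covl
      Pool.Agent.TH841.FD.COPRf.copr D hD δ L hδ
    obtain ⟨X2, h2⟩ := Pool.Agent.TH841.FD.pairs_ae Pool.Agent.TH841.FD.COVLf.covl D hD δ ε L hδ hε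
    refine ⟨X1 + X2, fun N₁ N₂ X hX hN1 hN2 => ⟨?_, ?_⟩⟩
    · have h3 := h1 N₁ N₂ X (by omega) hN1 hN2
      simp only [els_eq]
      refine le_trans (le_of_eq (sum_congr rfl fun t ht => ?_)) h3
      have h4 := (mem_filter.1 ht).2.2.2.2
      rw [unob_eq (fun h => h4 (mul_left_cancel₀ hD h))]
    · refine le_trans (Nat.cast_le.2 (card_le_card fun t ht => ?_)) (h2 N₁ N₂ X (by omega) hN1 hN2)
      obtain ⟨ht1, ht2, ht3⟩ := mem_filter.1 ht
      refine mem_filter.2 ⟨ht1, ht2, fun h => ht3 fun A B hA hB => ?_⟩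
      obtain ⟨k1, k2, k3, k4⟩ := h A B hA hB
      refine ⟨k1, k2, k3, ?_⟩
      rw [unob_eq k3, els_eq]
      exact k4

end Pool.Agent.Results.MP_308fa9_nt.QuarticsForPairs
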